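import Pool.Agent.Run7.h927.CG.Laws

set_option autoImplicit false

/-! Smaller classes of distributions. -/

namespace Pool.Agent.Run7.h927.CG
open Finset

theorem Good.mono {b M : ℕ} {C C' : ℕ → (ℕ → ℝ) → Prop} (h : Good b M C) (hC : ∀ k p, C' k p → C k p) : Good b M C' :=
  ⟨h.two, h.pos, fun k p hp => h.nonneg k p (hC k p hp), fun k p hp => h.sum k p (hC k p hp), fun c hc0 hc1 V => by
    obtain ⟨D, K₀, h1⟩ := h.char c hc0 hc1 V
    exact ⟨D, K₀, fun K hK m hm hKm p hp θ hθ => h1 K hK m hm hKm p (hC m p hp) θ hθ⟩⟩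

end Pool.Agent.Run7.h927.CG
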