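import Pool.Agent.N625.DY.K

set_option autoImplicit false

/-! Smaller classes of distributions. -/

namespace Pool.Agent.Run7.h927.CG
open Finset
open Pool.Agent.N625.DY (Cls)

theorem cls_mono {b : ℕ} {κ : ℤ} {C C' : ℕ → (ℕ → ℝ) → Prop} (h : Cls b κ C) (hC : ∀ k p, C' k p → C k p) : Cls b κ C' := by
  refine ⟨h.two, h.ne, fun k p hp => h.nonneg k p (hC k p hp), fun k p hp => h.sum k p (hC k p hp), ?_, ?_⟩
  · obtain ⟨F, hF, h1⟩ := h.law
    refine ⟨F, hF, fun e V => ?_⟩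
    obtain ⟨D, K₀, h2⟩ := h1 e V
    exact ⟨D, K₀, fun K hK m hm p hp cc => h2 K hK m hm p (hC m p hp) cc⟩
  · intro e U
    obtain ⟨W, K₀, h2⟩ := h.anti e U
    exact ⟨W, K₀, fun K hK m hm p hp cc Sm _ hS => h2 K hK m hm p (hC m p hp) cc Sm hS⟩

end Pool.Agent.Run7.h927.CG
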