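import Pool.Agent.N84.MD.GB
import Pool.Agent.N469.GG.Deg
import Pool.Agent.Results.MP_443e5f_co.AlmostAllVertices

set_option autoImplicit false

/-! The Goldbach graphs: almost all the vertices near random integers are in the bounded part, for all classes of
distributions with a thin large spectrum (the proof is that of the starting file
`Pool.Agent.Results.MP_443e5f_co.AlmostEveryRealNumber`, without the last step). -/

namespace Pool.Agent.Run7.h927.CG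

open Finset
open Pool.Agent.Results.MP_443e5f_co.AlmostAllVertices (goldbach nearGoldbach)
open Pool.Agent.N625.PT (TCls)

/-- the bounded part of a graph -/
def Bounded {V : Type} (G : SimpleGraph V) (X : Set V) (C : ℕ) (c : ℝ) (U n : ℕ) : Prop :=
  (Xᶜ.ncard : ℝ) ≤ n / Real.log n ^ U ∧
    Nat.card (G.induce X).ConnectedComponent ≤ C ∧
    (∀ u v : X, (G.induce X).Reachable u v → (G.induce X).dist u v ≤ C) ∧
    ∀ u : X, c * (n / Real.log n ^ 2) ≤ (((G.induce X).neighborSet u).ncard : ℝ)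

/-- `a` is a vertex of the Goldbach graph outside `X` or a vertex of the near Goldbach graph outside `Y`. -/
def Outside (n : ℕ) (X : Set {a : ℕ // Even a ∧ a ≤ 2 * n}) (Y : Set {a : ℕ // Even a ∧ 2 ≤ a ∧ a ≤ 2 * n}) (a : ℕ) : Prop :=
  (∃ h : Even a ∧ a ≤ 2 * n, (⟨a, h⟩ : {a : ℕ // Even a ∧ a ≤ 2 * n}) ∉ X) ∨
    ∃ h : Even a ∧ 2 ≤ a ∧ a ≤ 2 * n, (⟨a, h⟩ : {a : ℕ // Even a ∧ 2 ≤ a ∧ a ≤ 2 * n}) ∉ Y

open Classical in
theorem vertices : ∃ (C : ℕ) (c : ℝ), 0 < c ∧ ∀ U : ℕ, ∃ (X : ∀ n : ℕ, Set {a : ℕ // Even a ∧ a ≤ 2 * n})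
    (Y : ∀ n : ℕ, Set {a : ℕ // Even a ∧ 2 ≤ a ∧ a ≤ 2 * n}),
    (∃ n₀ : ℕ, ∀ n : ℕ, n₀ ≤ n → Bounded (goldbach n) (X n) C c U n ∧ Bounded (nearGoldbach n) (Y n) C c U n) ∧
    ∀ (b : ℕ) (κ : ℤ) (𝓕 : ℕ → (ℕ → ℝ) → Prop), TCls b κ 𝓕 → ∀ (A B r s W : ℕ),
      ∃ k₀ : ℕ, ∀ k : ℕ, k₀ ≤ k → ∀ p : ℕ → ℝ, 𝓕 k p → ∀ c₀ : ℤ, |c₀| ≤ B * (b : ℤ) ^ k →
        ∑ v ∈ range (b ^ k), (if ∀ n : ℕ, b ^ k ≤ s * n → n ≤ k ^ r * b ^ k → ∀ a : ℕ,
          |(a : ℤ) - (c₀ + κ * (v : ℕ))| ≤ (k : ℤ) ^ A → ¬ Outside n (X n) (Y n) a then 0 else p v) ≤ 1 / (k : ℝ) ^ W := by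
  obtain ⟨C, c, hc, hall⟩ := Pool.Agent.Results.MP_443e5f_co.AlmostAllVertices.result
  obtain ⟨c₁, hc₁, n₁, hdeg⟩ := Pool.Agent.N84.MD.GB.deg2
  refine ⟨C * (C + 3) + C, min c (c₁ / 2), lt_min hc (by positivity), fun U => ?_⟩
  obtain ⟨n₂, h2⟩ := hall (U + 3)
  obtain ⟨n₃, h3⟩ := Pool.Agent.H373R2.T7.ev_L' (2 / c₁ + 1)
  have hex : ∀ n : ℕ, ∃ (X : Set {a : ℕ // Even a ∧ a ≤ 2 * n}) (Y : Set {a : ℕ // Even a ∧ 2 ≤ a ∧ a ≤ 2 * n}),
      n₁ + n₂ + n₃ + 2 ≤ n → (Bounded (goldbach n) X (C * (C + 3) + C) (min c (c₁ / 2)) U n ∧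
        Bounded (nearGoldbach n) Y (C * (C + 3) + C) (min c (c₁ / 2)) U n) ∧
        (∀ a, c₁ * (n / Real.log n ^ 2) ≤ (((goldbach n).neighborSet a).ncard : ℝ) → a ∈ X) ∧
        (∀ a, c₁ * (n / Real.log n ^ 2) ≤ (((nearGoldbach n).neighborSet a).ncard : ℝ) → a ∈ Y) := by
    intro n
    by_cases hn : n₁ + n₂ + n₃ + 2 ≤ n
    · obtain ⟨q1, q2⟩ := h2 n (by omega)
      have a3 := h3 n (by omega)
      have hn0 : (0 : ℝ) < n := by exact_mod_cast (by omega : 0 < n)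
      have hL1 : 1 ≤ Real.log (n : ℝ) := by
        have : 0 < 2 / c₁ := by positivity
        linarith
      have hL0 : 0 < Real.log (n : ℝ) := by linarith
      have hpos : 0 < (n : ℝ) / Real.log n ^ 2 := by positivity
      have hlarge : (n : ℝ) / Real.log n ^ (U + 3) ≤ c₁ / 2 * (n / Real.log n ^ 2) := by
        have e1 : (n : ℝ) / Real.log n ^ (U + 3) = (1 / Real.log n ^ (U + 1)) * (n / Real.log n ^ 2) := by
          rw [show U + 3 = (U + 1) + 2 by ring, pow_add _ (U + 1) 2]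
          field_simp
        rw [e1]
        apply mul_le_mul_of_nonneg_right _ hpos.le
        rw [div_le_iff₀ (by positivity)]
        have e2 : Real.log (n : ℝ) ≤ Real.log n ^ (U + 1) := le_self_pow₀ hL1 (by omega)
        have e3 : 2 / c₁ ≤ Real.log (n : ℝ) := by linarith
        rw [div_le_iff₀ hc₁] at e3
        nlinarith
      obtain ⟨X, ⟨x1, x2, x3, x4⟩, x5⟩ := Pool.Agent.N469.GG.absorb (goldbach n) C c c₁ (U + 3) n q1 hc₁ hpos hlarge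
      obtain ⟨Y, ⟨y1, y2, y3, y4⟩, y5⟩ := Pool.Agent.N469.GG.absorb (nearGoldbach n) C c c₁ (U + 3) n q2 hc₁ hpos hlarge
      have hU : (n : ℝ) / Real.log n ^ (U + 3) ≤ n / Real.log n ^ U :=
        div_le_div_of_nonneg_left hn0.le (by positivity) (pow_le_pow_right₀ hL1 (by omega))
      exact ⟨X, Y, fun _ => ⟨⟨⟨x1.trans hU, x2, x3, x4⟩, ⟨y1.trans hU, y2, y3, y4⟩⟩, x5, y5⟩⟩
    · exact ⟨Set.univ, Set.univ, fun h => absurd h hn⟩
  choose X Y hXY using hex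
  refine ⟨X, Y, ⟨n₁ + n₂ + n₃ + 2, fun n hn => (hXY n hn).1⟩, fun b κ 𝓕 hC A B r s W => ?_⟩
  obtain ⟨k₀, h0⟩ := Pool.Agent.N84.MD.GB.core hC B s r A W c₁ n₁ hdeg
  refine ⟨k₀ + s * (n₁ + n₂ + n₃ + 2), fun k hk p hp c₀ hc₀ => ?_⟩
  refine le_trans (sum_le_sum fun v _ => ?_) (h0 k (by omega) p hp c₀ hc₀)
  have hp0 := hC.nonneg k p hp v
  by_cases hv : ∀ n : ℕ, b ^ k ≤ s * n → n ≤ k ^ r * b ^ k → ∀ a : ℕ,
      |(a : ℤ) - (c₀ + κ * v)| ≤ (k : ℤ) ^ A → Even a → a ≤ 2 * n → c₁ * (n / Real.log n ^ 2) ≤ ((Pool.Agent.N469.GG.Nb n a).card : ℝ)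
  · rw [if_pos hv, if_pos]
    intro n hn1 hn2 a ha hout
    have hkb : k < b ^ k := Nat.lt_pow_self (by have := hC.two; omega)
    have hn : n₁ + n₂ + n₃ + 2 ≤ n := by
      by_contra hcon
      push Not at hcon
      have : s * n ≤ s * (n₁ + n₂ + n₃ + 2) := Nat.mul_le_mul_left _ hcon.le
      omega
    obtain ⟨-, hX, hY⟩ := hXY n hn
    rcases hout with ⟨h, ho⟩ | ⟨h, ho⟩
    · refine ho (hX _ ((hv n hn1 hn2 a ha h.1 h.2).trans ?_))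
      exact_mod_cast Pool.Agent.N469.GG.nb_gold n a h
    · refine ho (hY _ ((hv n hn1 hn2 a ha h.1 h.2.2).trans ?_))
      exact_mod_cast Pool.Agent.N469.GG.nb_near n a h
  · rw [if_neg hv]
    split_ifs
    · exact hp0
    · exact le_rfl

end Pool.Agent.Run7.h927.CG
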